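import Pool.Agent.Y778.NK.Stm

/-!
# Rational class functions are traces of combinations of averaging idempotents (for helper778)
-/

set_option autoImplicit false

namespace Pool.Agent.Y785.NK

open Pool.Agent.Y69 Pool.Agent.Y778.NK Subgroup

section lemmas

variable {G : Type} [Group G]

theorem inv_exp {n k : ℕ} (hn : 0 < n) (hk : k.Coprime n) :
    ∃ m : ℕ, m.Coprime n ∧ ∀ d : G, orderOf d = n → (d ^ k) ^ m = d := by
  rcases Nat.lt_or_ge 1 n with h1 | h1
  · obtain ⟨m, -, hm⟩ := Nat.exists_mul_mod_eq_one_of_coprime hk h1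
    refine ⟨m, ?_, fun d hd => ?_⟩
    · have h3 : Nat.Coprime (k * m) n := by
        rw [Nat.Coprime, Nat.gcd_comm, Nat.gcd_rec, hm, Nat.gcd_one_left]
      exact Nat.Coprime.coprime_mul_left h3
    · rw [← pow_mul, ← pow_mod_orderOf, hd, hm, pow_one]
  · have h2 : n = 1 := by omega
    subst h2
    refine ⟨1, Nat.coprime_one_right 1, fun d hd => ?_⟩
    rw [orderOf_eq_one_iff] at hd
    rw [hd, one_pow, one_pow]

theorem zpowers_pow {d : G} {k : ℕ} (hd : 0 < orderOf d) (hk : k.Coprime (orderOf d)) :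
    zpowers (d ^ k) = zpowers d := by
  obtain ⟨m, -, hm⟩ := inv_exp (G := G) hd hk
  refine le_antisymm ?_ ?_
  · rw [zpowers_le]
    exact pow_mem (mem_zpowers d) k
  · rw [zpowers_le]
    have h := pow_mem (mem_zpowers (d ^ k)) m
    rwa [hm d rfl] at h

theorem order_eq {x d : G} (h : zpowers d = zpowers x) : orderOf d = orderOf x := by
  rw [← Nat.card_zpowers, h, Nat.card_zpowers]

theorem exists_exp {x d : G} (hx : 0 < orderOf x) (h : zpowers d = zpowers x) :
    ∃ k : ℕ, k.Coprime (orderOf x) ∧ d = x ^ k := by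
  have hf : IsOfFinOrder x := orderOf_pos_iff.1 hx
  have h1 : d ∈ zpowers x := by
    rw [← h]
    exact mem_zpowers d
  rw [← hf.mem_powers_iff_mem_zpowers, Submonoid.mem_powers_iff] at h1
  obtain ⟨k, rfl⟩ := h1
  refine ⟨k, ?_, rfl⟩
  have h2 := order_eq h
  rw [hf.orderOf_pow] at h2
  have h3 : Nat.gcd (orderOf x) k ∣ orderOf x := Nat.gcd_dvd_left _ _
  have h4 := Nat.div_mul_cancel h3
  rw [h2] at h4
  rw [Nat.Coprime, Nat.gcd_comm]
  exact Nat.eq_of_mul_eq_mul_left hx (by rw [h4, mul_one])

open Classical in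
theorem card_le (x : G) (k : ℕ) (hx : 0 < orderOf x) (hk : k.Coprime (orderOf x))
    (S : Finset G) (hS : ∀ d, d ∈ S ↔ zpowers d = zpowers x) :
    (S.filter (fun d => IsConj x d)).card ≤ (S.filter (fun d => IsConj (x ^ k) d)).card := by
  obtain ⟨m, -, hm⟩ := inv_exp (G := G) hx hk
  refine Finset.card_le_card_of_injOn (fun d => d ^ k) ?_ ?_
  · intro d hd
    rw [Finset.mem_coe, Finset.mem_filter, hS] at hd
    rw [Finset.mem_coe, Finset.mem_filter, hS]
    refine ⟨?_, hd.2.pow k⟩
    have h1 := order_eq hd.1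
    rw [← hd.1]
    exact zpowers_pow (by rw [h1]; exact hx) (by rw [h1]; exact hk)
  · intro a ha b hb hab
    rw [Finset.mem_coe, Finset.mem_filter, hS] at ha hb
    have h1 := hm a (order_eq ha.1)
    have h2 := hm b (order_eq hb.1)
    have h3 : a ^ k = b ^ k := hab
    rw [← h1, ← h2, h3]

open Classical in
theorem card_eq {x d : G} (hx : 0 < orderOf x) (h : zpowers d = zpowers x)
    (S : Finset G) (hS : ∀ d, d ∈ S ↔ zpowers d = zpowers x) :
    (S.filter (fun y => IsConj d y)).card = (S.filter (fun y => IsConj x y)).card := by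
  obtain ⟨k, hk, rfl⟩ := exists_exp hx h
  have h1 := order_eq h
  refine le_antisymm ?_ (card_le x k hx hk S hS)
  obtain ⟨m, hm, hm'⟩ := inv_exp (G := G) hx hk
  have h2 := card_le (x ^ k) m (by rw [h1]; exact hx) (by rw [h1]; exact hm) S
    (fun d => by rw [hS, h])
  rwa [hm' x rfl] at h2

end lemmas

open Classical in
theorem comb (hcyc : S_Cyc) : S_Comb := by
  intro G _ β P
  induction P using Finset.induction_on generalizing β with
  | empty =>
    intro _ _ _ h4
    refine ⟨1, 0, one_pos, AddSubgroup.zero_mem _, fun g => ?_⟩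
    have h5 : β g = 0 := by
      by_contra hc
      obtain ⟨x, hx, -⟩ := h4 g hc
      exact absurd hx (Finset.notMem_empty x)
    rw [map_zero, h5, mul_zero]
  | insert x P _ ih =>
    intro h1 h2 h3 h4
    by_cases hβ : β x = 0
    · refine ih β h1 h2 h3 fun g hg => ?_
      obtain ⟨y, hy, hyg⟩ := h4 g hg
      rcases Finset.mem_insert.1 hy with rfl | hy
      · exact absurd ((h1 _ _ hyg).symm.trans hβ) hg
      · exact ⟨y, hy, hyg⟩
    have hx : 0 < orderOf x := by
      rcases Nat.eq_zero_or_pos (orderOf x) with h | h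
      · exact absurd (h2 x h) hβ
      · exact h
    have hfin : Finite (zpowers x) := by
      refine Nat.finite_of_card_ne_zero ?_
      rw [Nat.card_zpowers]
      exact hx.ne'
    -- the class of `x`
    obtain ⟨E, hE⟩ : ∃ E : G → Prop, ∀ g, E g ↔ ∃ d, zpowers d = zpowers x ∧ IsConj g d :=
      ⟨_, fun _ => Iff.rfl⟩
    have hEx : E x := (hE x).2 ⟨x, rfl, IsConj.refl x⟩
    have hEconj : ∀ g g', IsConj g g' → E g → E g' := by
      intro g g' hgg h
      obtain ⟨d, hd, hd'⟩ := (hE g).1 h
      exact (hE g').2 ⟨d, hd, hgg.symm.trans hd'⟩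
    have hEpow : ∀ g (k : ℕ), 0 < orderOf g → k.Coprime (orderOf g) → E g → E (g ^ k) := by
      intro g k hg hk h
      obtain ⟨d, hd, hd'⟩ := (hE g).1 h
      have h5 : orderOf g = orderOf d := by
        obtain ⟨c, hc⟩ := hd'
        exact SemiconjBy.orderOf_eq _ hc
      refine (hE _).2 ⟨d ^ k, ?_, hd'.pow k⟩
      rw [zpowers_pow (by rw [← h5]; exact hg) (by rw [← h5]; exact hk), hd]
    have hEβ : ∀ g, E g → β g = β x := by
      intro g h
      obtain ⟨d, hd, hd'⟩ := (hE g).1 h
      obtain ⟨k, hk, rfl⟩ := exists_exp hx hd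
      rw [h1 _ _ hd', h3 x k hx hk]
    obtain ⟨β', hβ'⟩ : ∃ β' : G → ℚ, ∀ g, β' g = if E g then 0 else β g := ⟨_, fun _ => rfl⟩
    obtain ⟨M', v', hM', hv', hT'⟩ := ih β'
      (by
        intro a b hab
        rw [hβ', hβ']
        by_cases h : E a
        · rw [if_pos h, if_pos (hEconj _ _ hab h)]
        · rw [if_neg h, if_neg fun h' => h (hEconj _ _ hab.symm h'), h1 _ _ hab])
      (by
        intro g hg
        rw [hβ']
        by_cases h : E g
        · rw [if_pos h]
        · rw [if_neg h, h2 g hg])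
      (by
        intro g k hg hk
        rw [hβ', hβ']
        by_cases h : E g
        · rw [if_pos h, if_pos (hEpow g k hg hk h)]
        · have h5 : ¬ E (g ^ k) := by
            intro h'
            obtain ⟨m, hm, hm'⟩ := inv_exp (G := G) hg hk
            have h6 : orderOf (g ^ k) = orderOf g := order_eq (zpowers_pow hg hk)
            have h7 := hEpow (g ^ k) m (by rw [h6]; exact hg) (by rw [h6]; exact hm) h'
            rw [hm' g rfl] at h7
            exact h h7
          rw [if_neg h, if_neg h5, h3 g k hg hk])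
      (by
        intro g hg
        rw [hβ'] at hg
        by_cases h : E g
        · rw [if_pos h] at hg
          exact absurd rfl hg
        · rw [if_neg h] at hg
          obtain ⟨y, hy, hyg⟩ := h4 g hg
          rcases Finset.mem_insert.1 hy with rfl | hy
          · exact absurd (hEconj _ _ hyg hEx) h
          · exact ⟨y, hy, hyg⟩)
    obtain ⟨M, v, hM, hv, hT⟩ := hcyc G ⟨zpowers x, hfin⟩
    -- the generators
    have hSfin : {d : G | zpowers d = zpowers x}.Finite := by
      have h5 : ((zpowers x : Subgroup G) : Set G).Finite := Set.toFinite _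
      refine h5.subset fun d hd => ?_
      have h6 : zpowers d = zpowers x := hd
      show d ∈ zpowers x
      rw [← h6]
      exact mem_zpowers d
    obtain ⟨S, hSd⟩ : ∃ S : Finset G, S = hSfin.toFinset := ⟨_, rfl⟩
    have hS : ∀ d, d ∈ S ↔ zpowers d = zpowers x := by
      intro d
      rw [hSd, Set.Finite.mem_toFinset]
      exact Iff.rfl
    have hγ : ∀ g, TC ℚ (cind g) v = M * ((S.filter (fun d => IsConj g d)).card : ℚ) := by
      intro g
      rw [hT _ (cind_cls g)]
      congr 1
      have h5 : ∑ᶠ (d : G) (_ : zpowers d = zpowers x), ((cind g d : ℤ) : ℚ) =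
          ∑ d ∈ S, ((cind g d : ℤ) : ℚ) := by
        have h6 := finsum_mem_eq_finite_toFinset_sum (fun d : G => ((cind g d : ℤ) : ℚ)) hSfin
        rw [← hSd] at h6
        exact h6
      refine h5.trans ?_
      rw [Finset.card_filter, Nat.cast_sum]
      refine Finset.sum_congr rfl fun d _ => ?_
      unfold cind
      split_ifs <;> simp
    obtain ⟨w, hw⟩ : ∃ w : ℕ, w = (S.filter (fun d => IsConj x d)).card := ⟨_, rfl⟩
    have hw0 : 0 < w := by
      rw [hw, Finset.card_pos]
      exact ⟨x, Finset.mem_filter.2 ⟨(hS x).2 rfl, IsConj.refl x⟩⟩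
    have hγE : ∀ g, E g → (S.filter (fun d => IsConj g d)).card = w := by
      intro g h
      obtain ⟨d, hd, hd'⟩ := (hE g).1 h
      rw [hw, ← card_eq hx hd S hS]
      congr 1
      refine Finset.filter_congr fun y _ => ?_
      exact ⟨fun h => hd'.symm.trans h, fun h => hd'.trans h⟩
    have hγE' : ∀ g, ¬ E g → (S.filter (fun d => IsConj g d)).card = 0 := by
      intro g h
      rw [Finset.card_eq_zero, Finset.filter_eq_empty_iff]
      intro d hd hgd
      exact h ((hE g).2 ⟨d, (hS d).1 hd, hgd⟩)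
    have hden := (β x).den_pos
    refine ⟨(β x).den * M * w * M', ((β x).den * M * w) • v' + ((M' : ℤ) * (β x).num) • v,
      by positivity, ?_, fun g => ?_⟩
    · exact AddSubgroup.add_mem _ (AddSubgroup.nsmul_mem _ hv' _) (AddSubgroup.zsmul_mem _ hv _)
    · rw [map_add, map_nsmul, map_zsmul, hT', hγ, nsmul_eq_mul, zsmul_eq_mul]
      have h5 : ((β x).num : ℚ) = β x * (β x).den := (Rat.mul_den_eq_num (β x)).symm
      by_cases h : E g
      · rw [hβ', if_pos h, hγE g h, hEβ g h]
        push_cast
        rw [h5]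
        ring
      · rw [hβ', if_neg h, hγE' g h]
        push_cast
        ring

end Pool.Agent.Y785.NK
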